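import Pool.Agent.H638Z.Par.Ladder

/-! The finite core inequality. -/

set_option autoImplicit false

namespace Pool.Agent.H638Z.Par

open Classical in
/-- A representative first vertex of an edge with inner product `s` and norm `d`. -/
noncomputable def rp (s : ℤ) (d : ℕ) : GaussianInt :=
  if h : ∃ a : GaussianInt, a.norm = d ∧ ∃ b, det a b = 1 ∧ inn a b = s then h.choose else 1

theorem rp_ne (s : ℤ) (d : ℕ) : rp s d ≠ 0 := by
  unfold rp
  split_ifs with h
  · obtain ⟨-, b, h1, -⟩ := h.choose_spec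
    intro h0
    rw [h0] at h1
    simp [det] at h1
  · exact one_ne_zero

theorem par_eq {x a : GaussianInt} (h : det x a = 0) (hn : x.norm = a.norm) :
    a = x ∨ a = -x := by
  have e := norm_mul_norm x a
  rw [h, hn] at e
  have e1 : (inn x a - a.norm) * (inn x a + a.norm) = 0 := by linear_combination -e
  have n1 := norm_eq x
  have n2 := norm_eq a
  rcases mul_eq_zero.mp e1 with h1 | h1
  · left
    rw [← sub_eq_zero, ← GaussianInt.norm_eq_zero, norm_eq]
    simp only [Zsqrtd.re_sub, Zsqrtd.im_sub]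
    unfold inn at h1
    linear_combination -2 * h1 - n1 - n2 + hn
  · right
    rw [← add_eq_zero_iff_eq_neg, ← GaussianInt.norm_eq_zero, norm_eq]
    simp only [Zsqrtd.re_add, Zsqrtd.im_add]
    unfold inn at h1
    linear_combination 2 * h1 - n1 - n2 + hn

/-- The directions of the bad edges. -/
noncomputable def c1 (x : (Σ _ : ℕ, ℕ) × Bool × Bool) : GaussianInt :=
  (if x.2.2 then ⟨0, 1⟩ else 1) * rp (if x.2.1 then x.1.1 else -x.1.1) x.1.2

theorem c1_ne (x : (Σ _ : ℕ, ℕ) × Bool × Bool) : c1 x ≠ 0 := by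
  unfold c1
  refine mul_ne_zero ?_ (rp_ne _ _)
  split_ifs
  · decide
  · exact one_ne_zero

open Classical in
/-- The values `1 ≤ n ≤ X` with odd parity. -/
noncomputable def odds (G : GaussianInt → ZMod 2) (X : ℕ) : Finset ℕ :=
  (Finset.Icc 1 X).filter fun n => G ⟨n, 1⟩ = 1

/-- The index set of the bad directions. -/
noncomputable def s1 (G : GaussianInt → ZMod 2) (X : ℕ) : Finset ((Σ _ : ℕ, ℕ) × Bool × Bool) :=
  ((odds G X).sigma fun n => (n ^ 2 + 1).divisors) ×ˢ Finset.univ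

theorem card_s1 (G : GaussianInt → ZMod 2) (X : ℕ) :
    (s1 G X).card = 4 * ∑ n ∈ odds G X, (n ^ 2 + 1).divisors.card := by
  simp [s1, Finset.card_sigma, mul_comm]

theorem bad_edge {G : GaussianInt → ZMod 2} (hG : IsPar G) (X : ℕ) {a b : GaussianInt}
    (ha : a.norm ≤ X) (hb : b.norm ≤ X) (hd : det a b = 1) (hne : G a ≠ G b) :
    ∃ x ∈ s1 G X, a = c1 x ∨ a = -c1 x := by
  have ha0 : a ≠ 0 := by rintro rfl; simp [det] at hd
  have hb0 : b ≠ 0 := by rintro rfl; simp [det] at hd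
  have e1 := hG.add_eq ha0 hb0
  rw [zmod2_ne hne, hd] at e1
  have e2 := norm_mul_norm a b
  rw [hd] at e2
  have pa := GaussianInt.norm_nonneg a
  have pb := GaussianInt.norm_nonneg b
  obtain ⟨n, hn⟩ : ∃ n : ℕ, n = (inn a b).natAbs := ⟨_, rfl⟩
  have hn2 : (n : ℤ) ^ 2 = inn a b ^ 2 := by rw [hn, Int.natCast_natAbs, sq_abs]
  have e3 : G ⟨n, 1⟩ = 1 := by
    rw [e1]
    apply hG.nrm
    rw [norm_eq, norm_eq]
    simp only [hn2]
  have n1 : 1 ≤ n := by
    by_contra hc
    have : n = 0 := by omega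
    rw [this, hG.nrm _ 1 (by simp [norm_eq]), hG.int 1 one_ne_zero rfl] at e3
    exact absurd e3 (by decide)
  have n2 : n ≤ X := by
    have : a.norm * b.norm ≤ X * X := mul_le_mul ha hb pb (by positivity)
    have : (n : ℤ) ≤ X := by nlinarith
    exact_mod_cast this
  have hdv : a.norm.natAbs ∈ (n ^ 2 + 1).divisors := by
    rw [Nat.mem_divisors]
    refine ⟨⟨b.norm.natAbs, ?_⟩, by positivity⟩
    zify
    rw [abs_of_nonneg pa, abs_of_nonneg pb, e2, hn2]
    ring
  have hmem : ∀ y : Bool × Bool, ((⟨n, a.norm.natAbs⟩ : Σ _ : ℕ, ℕ), y) ∈ s1 G X := by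
    intro y
    simp only [s1, Finset.mem_product, Finset.mem_sigma, Finset.mem_univ, and_true]
    refine ⟨?_, hdv⟩
    unfold odds
    rw [Finset.mem_filter, Finset.mem_Icc]
    exact ⟨⟨n1, n2⟩, e3⟩
  obtain ⟨sg, hsg⟩ : ∃ sg : Bool, (if sg then (n : ℤ) else -n) = inn a b := by
    rcases le_total 0 (inn a b) with h | h
    · exact ⟨true, by simp only [if_true]; omega⟩
    · exact ⟨false, by simp only [Bool.false_eq_true, if_false]; omega⟩
  have hex : ∃ a' : GaussianInt, a'.norm = (a.norm.natAbs : ℕ) ∧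
      ∃ b', det a' b' = 1 ∧ inn a' b' = inn a b :=
    ⟨a, by rw [Int.natCast_natAbs, abs_of_nonneg pa], b, hd, rfl⟩
  obtain ⟨f1, b', f2, f3⟩ := hex.choose_spec
  have f0 : rp (inn a b) a.norm.natAbs = hex.choose := by
    unfold rp
    rw [dif_pos hex]
  rw [← f0] at f1 f2 f3
  rw [Int.natCast_natAbs, abs_of_nonneg pa] at f1
  rcases fibre f2 hd f3 f1 with h | h
  · refine ⟨_, hmem (sg, false), ?_⟩
    simp only [c1, Bool.false_eq_true, if_false, one_mul, hsg]
    exact par_eq h f1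
  · refine ⟨_, hmem (sg, true), ?_⟩
    simp only [c1, if_true, hsg]
    apply par_eq
    · unfold det
      unfold inn at h
      simp only [Zsqrtd.re_mul, Zsqrtd.im_mul]
      unfold inn
      linear_combination -h
    · rw [Zsqrtd.norm_mul, f1]
      simp [norm_eq]

theorem good_const {G : GaussianInt → ZMod 2} (hG : IsPar G) (X : ℕ) (z : ℂ) (ρ : ℝ) (hρ : 0 ≤ ρ)
    (hz : ∀ x ∈ s1 G X, ¬ Near z (c1 x) ρ) (u v : GaussianInt) (hu : u ≠ 0) (hv : v ≠ 0)
    (nu : u.norm ≤ X) (nv : v.norm ≤ X) (h1 : Near z u ρ) (h2 : Near z v ρ) : G u = G v := by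
  by_contra hne
  let K : GaussianInt → Prop := fun w =>
    |z.re * w.im - z.im * w.re| ≤ ρ * (z.re * w.re + z.im * w.im) ∧ w.norm ≤ X
  have hsign : ∀ u : GaussianInt, u ≠ 0 → u.norm ≤ X → Near z u ρ →
      ∃ u' : GaussianInt, u' ≠ 0 ∧ K u' ∧ G u' = G u := by
    intro u hu nu h
    rcases le_total 0 (z.re * u.re + z.im * u.im) with hs | hs
    · rw [near_iff, abs_of_nonneg hs] at h
      exact ⟨u, hu, ⟨h, nu⟩, rfl⟩
    · rw [← near_neg, near_iff, abs_of_nonneg (a := z.re * _ + _) (by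
        simp only [Zsqrtd.re_neg, Zsqrtd.im_neg, Int.cast_neg]; linarith)] at h
      exact ⟨-u, neg_ne_zero.mpr hu, ⟨h, by simpa using nu⟩, hG.neg u⟩
  obtain ⟨u', a1, a2, a3⟩ := hsign u hu nu h1
  obtain ⟨v', b1, b2, b3⟩ := hsign v hv nv h2
  obtain ⟨a, b, Ka, Kb, hd, hab⟩ := sail' hG K (by
    intro u v w A B m Ku Kv hA hB hm h0 e1 e2
    obtain ⟨u1, u2⟩ := Ku
    obtain ⟨v1, v2⟩ := Kv
    constructor
    · have f1 : (m : ℝ) * w.re = A * u.re + B * v.re := by exact_mod_cast e1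
      have f2 : (m : ℝ) * w.im = A * u.im + B * v.im := by exact_mod_cast e2
      have hA' : (0 : ℝ) ≤ A := by exact_mod_cast hA
      have hB' : (0 : ℝ) ≤ B := by exact_mod_cast hB
      have h0' : (0 : ℝ) < m := by exact_mod_cast h0
      have g1 : (m : ℝ) * (z.re * w.im - z.im * w.re)
          = A * (z.re * u.im - z.im * u.re) + B * (z.re * v.im - z.im * v.re) := by
        linear_combination z.re * f2 - z.im * f1
      have g2 : (m : ℝ) * (z.re * w.re + z.im * w.im)
          = A * (z.re * u.re + z.im * u.im) + B * (z.re * v.re + z.im * v.im) := by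
        linear_combination z.re * f1 + z.im * f2
      apply le_of_mul_le_mul_left _ h0'
      calc (m : ℝ) * |z.re * w.im - z.im * w.re|
          = |(m : ℝ) * (z.re * w.im - z.im * w.re)| := by rw [abs_mul, abs_of_pos h0']
        _ ≤ A * |z.re * u.im - z.im * u.re| + B * |z.re * v.im - z.im * v.re| := by
          rw [g1]
          refine (abs_add_le _ _).trans ?_
          rw [abs_mul, abs_mul, abs_of_nonneg hA', abs_of_nonneg hB']
        _ ≤ A * (ρ * (z.re * u.re + z.im * u.im)) + B * (ρ * (z.re * v.re + z.im * v.im)) :=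
          add_le_add (mul_le_mul_of_nonneg_left u1 hA') (mul_le_mul_of_nonneg_left v1 hB')
        _ = _ := by linear_combination (-ρ) * g2
    · rw [norm_eq] at u2 v2 ⊢
      have g1 : m ^ 2 * (w.re ^ 2 + w.im ^ 2) = A ^ 2 * (u.re ^ 2 + u.im ^ 2)
          + B ^ 2 * (v.re ^ 2 + v.im ^ 2) + A * B * (2 * (u.re * v.re + u.im * v.im)) := by
        linear_combination (m * w.re + (A * u.re + B * v.re)) * e1
          + (m * w.im + (A * u.im + B * v.im)) * e2
      have g2 : 2 * (u.re * v.re + u.im * v.im) ≤ 2 * X := by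
        nlinarith [sq_nonneg (u.re - v.re), sq_nonneg (u.im - v.im)]
      have g3 := mul_le_mul_of_nonneg_left g2 (mul_nonneg hA hB)
      have g4 := mul_le_mul_of_nonneg_left u2 (sq_nonneg A)
      have g5 := mul_le_mul_of_nonneg_left v2 (sq_nonneg B)
      have g6 : (A + B) ^ 2 * X ≤ m ^ 2 * X :=
        mul_le_mul_of_nonneg_right (pow_le_pow_left₀ (by omega) hm 2) (by positivity)
      have g7 : m ^ 2 * (w.re ^ 2 + w.im ^ 2) ≤ m ^ 2 * X := by nlinarith
      exact le_of_mul_le_mul_left g7 (by positivity)) u' v' a1 b1 a2 b2 (by rwa [a3, b3])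
  obtain ⟨x, hx, hax⟩ := bad_edge hG X Ka.2 Kb.2 hd hab
  have hn : Near z a ρ := by
    rw [near_iff]
    exact Ka.1.trans (mul_le_mul_of_nonneg_left (le_abs_self _) hρ)
  apply hz x hx
  rcases hax with h | h
  · rwa [← h]
  · rwa [← near_neg, ← h]

/-- A good direction. -/
def Good (G : GaussianInt → ZMod 2) (X Q : ℕ) (ω : ℝ) (z : ℂ) : Prop :=
  (∀ u v : GaussianInt, u ≠ 0 → v ≠ 0 → u.norm ≤ X → v.norm ≤ X → Near z u (3 * ω) →
    Near z v (3 * ω) → G u = G v) ∧ ∃ u : GaussianInt, u ≠ 0 ∧ u.norm ≤ 2 * Q ^ 2 ∧ Near z u ω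

theorem chain {G : GaussianInt → ZMod 2} (hG : IsPar G) (X Q : ℕ) (Y : ℤ) (ω : ℝ) (hω : 0 ≤ ω)
    (hY : 1 ≤ Y) (h1 : 2 * Q ^ 2 * Y ≤ X) : ∀ (L : ℕ) (g : GaussianInt), Rep Y L g →
      ∃ T : Finset GaussianInt, T.card ≤ L + 1 ∧ (∀ p ∈ T, p ≠ 0) ∧ 1 ∈ T ∧ ∀ z : ℂ,
        (∀ p ∈ T, Good G X Q ω (z * p)) → ∀ u : GaussianInt, u ≠ 0 → u.norm ≤ 2 * Q ^ 2 →
          Near z u ω → ∃ u' : GaussianInt, u' ≠ 0 ∧ u'.norm ≤ 2 * Q ^ 2 ∧ Near (z * g) u' ω ∧
            G u' = G u + G g := by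
  classical
  intro L
  induction L with
  | zero =>
    intro g hg
    rw [show g = 1 from hg]
    refine ⟨{1}, by simp, by simp, by simp, fun z _ u hu nu hn => ⟨u, hu, nu, by simpa using hn, ?_⟩⟩
    rw [hG.int 1 one_ne_zero rfl, add_zero]
  | succ L ih =>
    intro g hg
    have hg0 := hg.ne
    obtain ⟨g', a, r1, r2, r3, r4⟩ := hg
    obtain ⟨T, t1, t2, t3, t4⟩ := ih g' r1
    refine ⟨insert g T, (Finset.card_insert_le _ _).trans (by omega), ?_,
      Finset.mem_insert_of_mem t3, ?_⟩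
    · intro p hp
      rcases Finset.mem_insert.mp hp with h | h
      · rwa [h]
      · exact t2 p h
    · intro z hz u hu nu hn
      obtain ⟨u1, a1, a2, a3, a4⟩ := t4 z (fun p hp => hz p (Finset.mem_insert_of_mem hp)) u hu nu hn
      obtain ⟨b1, u2, b2, b3, b4⟩ := hz g (Finset.mem_insert_self _ _)
      refine ⟨u2, b2, b3, b4, ?_⟩
      have c1 := a3.mul r2
      rw [mul_assoc, ← GaussianInt.toComplex_mul, ← r4] at c1
      have hQ : (0 : ℤ) ≤ 2 * Q ^ 2 := by positivity
      have c2 : (u1 * a).norm ≤ X := by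
        rw [Zsqrtd.norm_mul]
        exact le_trans (mul_le_mul a2 r3 (GaussianInt.norm_nonneg a) hQ) h1
      have c3 : u2.norm ≤ X := by nlinarith
      rw [b1 u2 (u1 * a) b2 (mul_ne_zero a1 r2) c3 c2 (b4.mono (by linarith))
        (c1.mono (by linarith)), hG.mul _ _ a1 r2, a4, r4, hG.mul _ _ r1.ne r2, add_assoc]

/-- The index set of the exceptional directions. -/
noncomputable def s2 (M0 : ℕ) : Finset ((Σ _ : ℤ, ℤ) × Bool) :=
  ((Finset.Icc (1 : ℤ) M0).sigma fun k => Finset.Icc (-k) k) ×ˢ Finset.univ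

theorem sum_s2 (M0 Q : ℕ) (hQ : 1 ≤ Q) :
    ∑ x ∈ s2 M0, (2 : ℝ) / (x.1.1 * Q) ≤ 12 * M0 / Q := by
  unfold s2
  rw [Finset.sum_product, Finset.sum_sigma]
  have hQ' : (1 : ℝ) ≤ Q := by exact_mod_cast hQ
  calc _ ≤ ∑ k ∈ Finset.Icc (1 : ℤ) M0, (12 : ℝ) / Q := by
        apply Finset.sum_le_sum
        intro k hk
        have hk1 := (Finset.mem_Icc.mp hk).1
        have hk2 : (1 : ℝ) ≤ k := by exact_mod_cast hk1
        simp only [Finset.sum_const, Finset.card_univ, Fintype.card_bool, Int.card_Icc,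
          nsmul_eq_mul]
        have e : (((k + 1 - -k).toNat : ℕ) : ℝ) = 2 * k + 1 := by
          have : (((k + 1 - -k).toNat : ℕ) : ℤ) = 2 * k + 1 := by omega
          exact_mod_cast this
        rw [e]
        push_cast
        rw [show (2 * (k : ℝ) + 1) * (2 * (2 / (k * Q))) = (4 * (2 * k + 1) / k) / Q by
          field_simp; ring]
        apply div_le_div_of_nonneg_right _ (by linarith)
        rw [div_le_iff₀ (by linarith)]
        linarith
    _ = _ := by
        simp only [Finset.sum_const, Int.card_Icc, nsmul_eq_mul]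
        simp
        ring

theorem core {G : GaussianInt → ZMod 2} (hG : IsPar G) (X Q M0 L : ℕ) (Y : ℤ) (ω : ℝ)
    (g : GaussianInt) (hR : Rep Y L g) (hg : G g = 1) (hsl : Sl (g : ℂ) ω) (hY : 1 ≤ Y)
    (h1 : 2 * Q ^ 2 * Y ≤ X) (hQ : 6 ≤ Q) (hω1 : 2 / ((M0 + 1) * Q) ≤ ω) (hω2 : ω ≤ 1 / 9) :
    1 ≤ (L + 1 : ℝ) * (6 * (12 * ω * (∑ n ∈ odds G X, (n ^ 2 + 1).divisors.card : ℕ)
      + 12 * M0 / Q)) := by
  have hQ' : (6 : ℝ) ≤ Q := by exact_mod_cast hQ
  have hω0 : 0 ≤ ω := le_trans (by positivity) hω1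
  by_contra hc
  push Not at hc
  obtain ⟨T, t1, t2, t3, t4⟩ := chain hG X Q Y ω hω0 hY h1 L g hR
  obtain ⟨z, hz0, hz⟩ := avoid T t2 ((s1 G X).disjSum (s2 M0))
    (Sum.elim c1 fun x => vec x.1.1 x.1.2 x.2) (Sum.elim (fun _ => 3 * ω) fun x => 2 / (x.1.1 * Q))
    (by
      rintro (x | x) hx
      · exact c1_ne x
      · simp only [s2, Finset.inr_mem_disjSum, Finset.mem_product, Finset.mem_sigma,
          Finset.mem_Icc] at hx
        exact vec_ne _ hx.1.1.1)
    (by
      rintro (x | x) hx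
      · simp only [Sum.elim_inl]; positivity
      · simp only [s2, Finset.inr_mem_disjSum, Finset.mem_product, Finset.mem_sigma,
          Finset.mem_Icc] at hx
        have : (1 : ℝ) ≤ x.1.1 := by exact_mod_cast hx.1.1.1
        simp only [Sum.elim_inr]; positivity)
    (by
      rintro (x | x) hx
      · simp only [Sum.elim_inl]; linarith
      · simp only [s2, Finset.inr_mem_disjSum, Finset.mem_product, Finset.mem_sigma,
          Finset.mem_Icc] at hx
        have : (1 : ℝ) ≤ x.1.1 := by exact_mod_cast hx.1.1.1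
        simp only [Sum.elim_inr]
        rw [div_le_div_iff₀ (by positivity) (by norm_num)]
        nlinarith)
    (by
      refine lt_of_le_of_lt ?_ hc
      rw [Finset.sum_disjSum]
      simp only [Sum.elim_inl, Sum.elim_inr, Finset.sum_const, nsmul_eq_mul]
      have a1 := sum_s2 M0 Q (by omega)
      have a2 : (T.card : ℝ) ≤ L + 1 := by exact_mod_cast t1
      have a3 : 0 ≤ ∑ x ∈ s2 M0, (2 : ℝ) / (x.1.1 * Q) := by
        apply Finset.sum_nonneg
        intro x hx
        simp only [s2, Finset.mem_product, Finset.mem_sigma, Finset.mem_Icc] at hx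
        have : (1 : ℝ) ≤ x.1.1 := by exact_mod_cast hx.1.1.1
        positivity
      apply mul_le_mul a2 _ (by positivity) (by positivity)
      rw [card_s1, Nat.cast_mul]
      push_cast
      linarith)
  have hgood : ∀ p ∈ T, Good G X Q ω (z * p) := by
    intro p hp
    constructor
    · exact good_const hG X _ _ (by positivity) fun x hx =>
        hz p hp (Sum.inl x) (Finset.inl_mem_disjSum.mpr hx)
    · obtain ⟨k, j, b, k1, k2, j1, j2, hn⟩ := dirichlet (z * p)
        (mul_ne_zero hz0 (by simpa using t2 p hp)) Q (by omega)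
      refine ⟨vec k j b, vec_ne b k1, vec_norm b k2 j1 j2, hn.mono (le_trans ?_ hω1)⟩
      have hk : (M0 : ℤ) + 1 ≤ k := by
        by_contra hk
        refine hz p hp (Sum.inr (⟨k, j⟩, b)) (Finset.inr_mem_disjSum.mpr ?_) hn
        simp only [s2, Finset.mem_product, Finset.mem_sigma, Finset.mem_Icc, Finset.mem_univ,
          and_true]
        omega
      have hk' : (M0 : ℝ) + 1 ≤ k := by exact_mod_cast hk
      apply div_le_div_of_nonneg_left (by norm_num) (by positivity)
      exact mul_le_mul_of_nonneg_right hk' (by positivity)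
  obtain ⟨b1, u, b2, b3, b4⟩ := hgood 1 t3
  simp only [GaussianInt.toComplex_one, mul_one] at b1 b4
  obtain ⟨u', c1, c2, c3, c4⟩ := t4 z hgood u b2 b3 b4
  have hQ0 : (0 : ℤ) ≤ 2 * Q ^ 2 := by positivity
  have d := b1 u' u c1 b2 (by nlinarith) (by nlinarith) (c3.close hR.ne hsl hω0 (by linarith))
    (b4.mono (by linarith))
  rw [d, hg] at c4
  revert c4
  generalize G u = x
  revert x
  decide

end Pool.Agent.H638Z.Par
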