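import Pool.Agent.H638Z.Par.Sail

/-! Slopes, the covering lemma and Dirichlet approximation of a direction. -/

set_option autoImplicit false

namespace Pool.Agent.H638Z.Par

open MeasureTheory ComplexConjugate

/-- The complex number `w` has slope at most `r`. -/
def Sl (w : ℂ) (r : ℝ) : Prop := |w.im| ≤ r * |w.re|

/-- The Gaussian integer `u` points in direction `± z` up to slope `r`. -/
def Near (z : ℂ) (u : GaussianInt) (r : ℝ) : Prop := Sl (conj z * (u : ℂ)) r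

theorem Sl.mono {w : ℂ} {r r' : ℝ} (h : Sl w r) (hr : r ≤ r') : Sl w r' :=
  le_trans h (mul_le_mul_of_nonneg_right hr (abs_nonneg _))

theorem sl_smul {w : ℂ} {r c : ℝ} (hc : c ≠ 0) : Sl ((c : ℂ) * w) r ↔ Sl w r := by
  unfold Sl
  have hc' : 0 < |c| := abs_pos.mpr hc
  simp only [Complex.mul_im, Complex.mul_re, Complex.ofReal_re, Complex.ofReal_im, zero_mul,
    add_zero, sub_zero, abs_mul]
  constructor
  · intro h
    have : |c| * |w.im| ≤ |c| * (r * |w.re|) := by linarith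
    exact le_of_mul_le_mul_left this hc'
  · intro h
    have := mul_le_mul_of_nonneg_left h hc'.le
    linarith

theorem Sl.mul {w w' : ℂ} {r : ℝ} (h : Sl w r) (h' : Sl w' r) (h0 : 0 ≤ r) (h1 : r ≤ 1 / 2) :
    Sl (w * w') (3 * r) := by
  unfold Sl at *
  rw [Complex.mul_im, Complex.mul_re]
  have a1 : |w.re * w'.im + w.im * w'.re| ≤ |w.re| * |w'.im| + |w.im| * |w'.re| := by
    rw [← abs_mul, ← abs_mul]; exact abs_add_le _ _
  have a2 : |w.re| * |w'.re| - |w.im| * |w'.im| ≤ |w.re * w'.re - w.im * w'.im| := by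
    rw [← abs_mul, ← abs_mul]; exact abs_sub_abs_le_abs_sub _ _
  have p1 := abs_nonneg w.re
  have p2 := abs_nonneg w'.re
  have p3 := abs_nonneg w.im
  have p4 := abs_nonneg w'.im
  have b1 : |w.re| * |w'.im| ≤ r * (|w.re| * |w'.re|) := by nlinarith
  have b2 : |w.im| * |w'.re| ≤ r * (|w.re| * |w'.re|) := by nlinarith
  have b3 : |w.im| * |w'.im| ≤ r * r * (|w.re| * |w'.re|) := by
    calc |w.im| * |w'.im| ≤ (r * |w.re|) * (r * |w'.re|) :=
          mul_le_mul h h' p4 (by positivity)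
      _ = _ := by ring
  have p5 : 0 ≤ |w.re| * |w'.re| := by positivity
  have b4 : r * r * (|w.re| * |w'.re|) ≤ 1 / 4 * (|w.re| * |w'.re|) :=
    mul_le_mul_of_nonneg_right (by nlinarith) p5
  have b5 : 3 / 4 * (|w.re| * |w'.re|) ≤ |w.re * w'.re - w.im * w'.im| := by linarith
  have b6 := mul_le_mul_of_nonneg_left b5 (show 0 ≤ 3 * r by positivity)
  have b7 : 0 ≤ r * (|w.re| * |w'.re|) := by positivity
  nlinarith

theorem Near.mono {z : ℂ} {u : GaussianInt} {r r' : ℝ} (h : Near z u r) (hr : r ≤ r') :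
    Near z u r' := Sl.mono h hr

theorem near_neg {z : ℂ} {u : GaussianInt} {r : ℝ} : Near z (-u) r ↔ Near z u r := by
  unfold Near Sl
  rw [GaussianInt.toComplex_neg, mul_neg, Complex.neg_im, Complex.neg_re, abs_neg, abs_neg]

theorem normSq_ne {a : GaussianInt} (ha : a ≠ 0) : Complex.normSq (a : ℂ) ≠ 0 := by
  simpa using ha

theorem Near.mul {z : ℂ} {u a : GaussianInt} {r : ℝ} (h : Near z u r) (ha : a ≠ 0) :
    Near (z * a) (u * a) r := by
  unfold Near at *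
  have : conj (z * a) * ((u * a : GaussianInt) : ℂ)
      = (Complex.normSq (a : ℂ) : ℂ) * (conj z * u) := by
    rw [Complex.normSq_eq_conj_mul_self]
    simp only [map_mul]
    ring
  rw [this, sl_smul (normSq_ne ha)]
  exact h

theorem near_shift {z : ℂ} {p c : GaussianInt} {r : ℝ} :
    Near (z * p) c r ↔ Near z (star p * c) r := by
  unfold Near
  have : conj (z * p) * (c : ℂ) = conj z * ((star p * c : GaussianInt) : ℂ) := by
    rw [GaussianInt.toComplex_mul, GaussianInt.toComplex_star]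
    simp only [map_mul]
    ring
  rw [this]

theorem Near.close {z : ℂ} {u g : GaussianInt} {r : ℝ} (h : Near (z * g) u r) (hg : g ≠ 0)
    (hs : Sl (g : ℂ) r) (h0 : 0 ≤ r) (h1 : r ≤ 1 / 2) : Near z u (3 * r) := by
  unfold Near at *
  have h2 := Sl.mul h hs h0 h1
  have : conj (z * g) * (u : ℂ) * g = (Complex.normSq (g : ℂ) : ℂ) * (conj z * u) := by
    rw [Complex.normSq_eq_conj_mul_self]
    simp only [map_mul]
    ring
  rwa [this, sl_smul (normSq_ne hg)] at h2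

theorem near_iff {z : ℂ} {u : GaussianInt} {r : ℝ} :
    Near z u r ↔ |z.re * u.im - z.im * u.re| ≤ r * |z.re * u.re + z.im * u.im| := by
  unfold Near Sl
  simp only [Complex.mul_im, Complex.mul_re, Complex.conj_re, Complex.conj_im,
    ← GaussianInt.intCast_re, ← GaussianInt.intCast_im]
  rw [show z.re * (u.im : ℝ) + -z.im * u.re = z.re * u.im - z.im * u.re by ring,
    show z.re * (u.re : ℝ) - -z.im * u.im = z.re * u.re + z.im * u.im by ring]

theorem cover {ι : Type} (s : Finset ι) (T : ι → Set ℝ) (d : ι → ℝ) (h0 : ∀ i ∈ s, 0 ≤ d i)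
    (h1 : ∀ i ∈ s, ∀ a ∈ T i, ∀ b ∈ T i, |a - b| ≤ d i)
    (h2 : ∀ t ∈ Set.Icc (0 : ℝ) 1, ∃ i ∈ s, t ∈ T i) : 1 ≤ ∑ i ∈ s, d i := by
  have e1 : volume (Set.Icc (0 : ℝ) 1) ≤ volume (⋃ i ∈ s, T i) := by
    apply measure_mono
    intro t ht
    obtain ⟨i, hi, hT⟩ := h2 t ht
    exact Set.mem_biUnion hi hT
  have e2 := measure_biUnion_finset_le (μ := (volume : Measure ℝ)) s T
  have e3 : ∑ i ∈ s, volume (T i) ≤ ∑ i ∈ s, ENNReal.ofReal (d i) := by
    apply Finset.sum_le_sum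
    intro i hi
    refine (Real.volume_le_diam _).trans (Metric.ediam_le_of_forall_dist_le ?_)
    intro a ha b hb
    rw [Real.dist_eq]
    exact h1 i hi a ha b hb
  rw [← ENNReal.ofReal_sum_of_nonneg h0] at e3
  have e4 := e1.trans (e2.trans e3)
  rw [Real.volume_Icc, sub_zero] at e4
  exact (ENNReal.ofReal_le_ofReal_iff (Finset.sum_nonneg h0)).mp e4

theorem diam_le {c : GaussianInt} (hc : c ≠ 0) {r : ℝ} (h0 : 0 ≤ r) (h1 : r ≤ 1 / 3) {a b : ℝ}
    (ha : a ∈ Set.Icc (0 : ℝ) 1) (hb : b ∈ Set.Icc (0 : ℝ) 1) (na : Near ⟨1, a⟩ c r)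
    (nb : Near ⟨1, b⟩ c r) : |a - b| ≤ 6 * r := by
  rw [near_iff] at na nb
  simp only [one_mul] at na nb
  obtain ⟨a0, a1⟩ := ha
  obtain ⟨b0, b1⟩ := hb
  obtain ⟨x, hx⟩ : ∃ x : ℝ, x = (c.re : ℝ) := ⟨_, rfl⟩
  obtain ⟨y, hy⟩ : ∃ y : ℝ, y = (c.im : ℝ) := ⟨_, rfl⟩
  rw [← hx, ← hy] at na nb
  have px := abs_nonneg x
  have py := abs_nonneg y
  have k : ∀ t : ℝ, 0 ≤ t → t ≤ 1 → |x + t * y| ≤ |x| + |y| := by
    intro t t0 t1
    refine (abs_add_le _ _).trans ?_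
    rw [abs_mul, abs_of_nonneg t0]
    nlinarith
  have ka := mul_le_mul_of_nonneg_left (k a a0 a1) h0
  have kb := mul_le_mul_of_nonneg_left (k b b0 b1) h0
  have e1 : |y| ≤ |y - a * x| + |x| := by
    have : |y| ≤ |y - a * x| + |a * x| := by
      have := abs_add_le (y - a * x) (a * x)
      rwa [sub_add_cancel] at this
    rw [abs_mul, abs_of_nonneg a0] at this
    nlinarith
  have e2 : |y| ≤ 2 * |x| := by nlinarith
  have e3 : 0 < |x| := by
    rcases px.lt_or_eq with h | h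
    · exact h
    · exfalso
      apply hc
      have hx0 : x = 0 := abs_eq_zero.mp h.symm
      have hy0 : y = 0 := abs_eq_zero.mp (by linarith)
      rw [hx] at hx0
      rw [hy] at hy0
      ext
      · exact_mod_cast hx0
      · exact_mod_cast hy0
  have e4 : |a - b| * |x| ≤ |y - a * x| + |y - b * x| := by
    rw [← abs_mul, show (a - b) * x = (y - b * x) - (y - a * x) by ring]
    have := abs_sub (y - b * x) (y - a * x)
    linarith
  have e5 : |a - b| * |x| ≤ 6 * r * |x| := by nlinarith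
  exact le_of_mul_le_mul_right e5 e3

theorem avoid {ι : Type} (T : Finset GaussianInt) (hT : ∀ p ∈ T, p ≠ 0) (s : Finset ι)
    (c : ι → GaussianInt) (r : ι → ℝ) (hc : ∀ i ∈ s, c i ≠ 0) (h0 : ∀ i ∈ s, 0 ≤ r i)
    (h1 : ∀ i ∈ s, r i ≤ 1 / 3) (hs : (T.card : ℝ) * (6 * ∑ i ∈ s, r i) < 1) :
    ∃ z : ℂ, z ≠ 0 ∧ ∀ p ∈ T, ∀ i ∈ s, ¬ Near (z * p) (c i) (r i) := by
  by_contra hcon
  push Not at hcon
  have := cover (T ×ˢ s)
    (fun x => {t | t ∈ Set.Icc (0 : ℝ) 1 ∧ Near ⟨1, t⟩ (star x.1 * c x.2) (r x.2)})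
    (fun x => 6 * r x.2) ?_ ?_ ?_
  · rw [Finset.sum_product] at this
    simp only [Finset.sum_const, nsmul_eq_mul, ← Finset.mul_sum] at this
    linarith
  · intro x hx
    have := h0 x.2 (Finset.mem_product.mp hx).2
    positivity
  · intro x hx a ha b hb
    obtain ⟨x1, x2⟩ := Finset.mem_product.mp hx
    exact diam_le (mul_ne_zero (by simpa using hT _ x1) (hc _ x2)) (h0 _ x2) (h1 _ x2)
      ha.1 hb.1 ha.2 hb.2
  · intro t ht
    obtain ⟨p, hp, i, hi, hn⟩ := hcon ⟨1, t⟩ (by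
      intro h
      have := congrArg Complex.re h
      simp at this)
    exact ⟨(p, i), Finset.mem_product.mpr ⟨hp, hi⟩, ht, near_shift.mp hn⟩

theorem dirichlet_aux (z : ℂ) (hz : z ≠ 0) (hle : |z.im| ≤ |z.re|) (Q : ℕ) (hQ : 1 ≤ Q) :
    ∃ k j : ℤ, 1 ≤ k ∧ k ≤ Q ∧ -k ≤ j ∧ j ≤ k ∧ Near z ⟨k, j⟩ (2 / (k * Q)) := by
  have hre : z.re ≠ 0 := by
    intro h
    apply hz
    rw [h, abs_zero] at hle
    exact Complex.ext h (abs_nonpos_iff.mp hle)
  have hre' : 0 < |z.re| := abs_pos.mpr hre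
  obtain ⟨j, k, k0, k1, h⟩ := Real.exists_int_int_abs_mul_sub_le (z.im / z.re) hQ
  set ξ := z.im / z.re with hξ
  have him : z.im = ξ * z.re := by rw [hξ]; field_simp
  have hξ1 : |ξ| ≤ 1 := by
    rw [hξ, abs_div]; exact (div_le_one hre').mpr hle
  have hQ' : (1 : ℝ) ≤ Q := by exact_mod_cast hQ
  have hk : (1 : ℝ) ≤ k := by exact_mod_cast k0
  have h2 : 1 / ((Q : ℝ) + 1) ≤ 1 / 2 := by
    apply one_div_le_one_div_of_le <;> linarith
  have h3 : 1 / ((Q : ℝ) + 1) ≤ 1 / Q := by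
    apply one_div_le_one_div_of_le <;> linarith
  obtain ⟨x1, x2⟩ := abs_le.mp hξ1
  obtain ⟨y1, y2⟩ := abs_le.mp (h.trans h2)
  have j1 : (j : ℝ) < k + 1 := by nlinarith
  have j2 : -((k : ℝ) + 1) < j := by nlinarith
  have j1' : j < k + 1 := by exact_mod_cast j1
  have j2' : -(k + 1) < j := by exact_mod_cast j2
  refine ⟨k, j, k0, k1, by omega, by omega, ?_⟩
  rw [near_iff]
  simp only
  rw [him, show z.re * (j : ℝ) - ξ * z.re * k = -(z.re * (k * ξ - j)) by ring,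
    show z.re * (k : ℝ) + ξ * z.re * j = z.re * (k + ξ * j) by ring, abs_neg, abs_mul, abs_mul]
  have e1 : (k : ℝ) / 2 ≤ k + ξ * j := by
    have : ξ * j = k * ξ ^ 2 - ξ * (k * ξ - j) := by ring
    have e : ξ * (k * ξ - j) ≤ 1 / 2 := by
      have := le_abs_self (ξ * (k * ξ - j))
      rw [abs_mul] at this
      have h4 := h.trans h2
      nlinarith [abs_nonneg ξ, abs_nonneg (k * ξ - j)]
    nlinarith [sq_nonneg ξ]
  have e2 : (k : ℝ) / 2 ≤ |k + ξ * j| := e1.trans (le_abs_self _)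
  have e3 : 2 / ((k : ℝ) * Q) * (k / 2) = 1 / Q := by field_simp
  have e4 : |(k : ℝ) * ξ - j| ≤ 2 / ((k : ℝ) * Q) * |k + ξ * j| := by
    calc |(k : ℝ) * ξ - j| ≤ 1 / Q := h.trans h3
      _ = 2 / ((k : ℝ) * Q) * (k / 2) := e3.symm
      _ ≤ _ := mul_le_mul_of_nonneg_left e2 (by positivity)
  nlinarith [mul_le_mul_of_nonneg_left e4 hre'.le]

/-- The two vectors attached to a pair `(k, j)`. -/
def vec (k j : ℤ) (b : Bool) : GaussianInt := if b then ⟨k, j⟩ else ⟨j, -k⟩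

theorem dirichlet (z : ℂ) (hz : z ≠ 0) (Q : ℕ) (hQ : 1 ≤ Q) :
    ∃ (k j : ℤ) (b : Bool), 1 ≤ k ∧ k ≤ Q ∧ -k ≤ j ∧ j ≤ k ∧ Near z (vec k j b) (2 / (k * Q)) := by
  rcases le_total |z.im| |z.re| with h | h
  · obtain ⟨k, j, h1, h2, h3, h4, h5⟩ := dirichlet_aux z hz h Q hQ
    exact ⟨k, j, true, h1, h2, h3, h4, h5⟩
  · obtain ⟨k, j, h1, h2, h3, h4, h5⟩ := dirichlet_aux ⟨-z.im, z.re⟩ (by
      intro h0
      apply hz
      have a := congrArg Complex.re h0
      have b := congrArg Complex.im h0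
      simp at a b
      exact Complex.ext b a) (by simpa using h) Q hQ
    refine ⟨k, j, false, h1, h2, h3, h4, ?_⟩
    rw [near_iff] at h5 ⊢
    simp only [vec] at h5 ⊢
    push_cast
    convert h5 using 2
    · ring
    · congr 1
      ring

theorem vec_ne {k j : ℤ} (b : Bool) (hk : 1 ≤ k) : vec k j b ≠ 0 := by
  intro h
  have a := congrArg Zsqrtd.re h
  have c := congrArg Zsqrtd.im h
  cases b <;> simp [vec] at a c <;> omega

theorem vec_norm {k j : ℤ} (b : Bool) {Q : ℕ} (h2 : k ≤ Q) (h3 : -k ≤ j) (h4 : j ≤ k) :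
    (vec k j b).norm ≤ 2 * Q ^ 2 := by
  rw [norm_eq]
  cases b <;> simp [vec] <;> nlinarith

end Pool.Agent.H638Z.Par
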