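import Pool.Agent.H638Z.Par.Cover

/-! Products of small Gaussian integers with a prescribed argument. -/

set_option autoImplicit false

namespace Pool.Agent.H638Z.Par

open Polynomial

/-- `g` is a product of `L` nonzero Gaussian integers of norm at most `Y`. -/
def Rep (Y : ℤ) : ℕ → GaussianInt → Prop
  | 0, g => g = 1
  | L + 1, g => ∃ g' a : GaussianInt, Rep Y L g' ∧ a ≠ 0 ∧ a.norm ≤ Y ∧ g = g' * a

theorem Rep.ne {Y : ℤ} : ∀ {L : ℕ} {g : GaussianInt}, Rep Y L g → g ≠ 0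
  | 0, g, h => by rw [show g = 1 from h]; exact one_ne_zero
  | L + 1, g, ⟨g', a, h1, h2, _, h4⟩ => by rw [h4]; exact mul_ne_zero h1.ne h2

theorem Rep.mul {Y : ℤ} {L : ℕ} {g : GaussianInt} (h : Rep Y L g) :
    ∀ {L' : ℕ} {g' : GaussianInt}, Rep Y L' g' → Rep Y (L + L') (g * g')
  | 0, g', h' => by rw [show g' = 1 from h', mul_one]; exact h
  | L' + 1, g', ⟨g'', a, h1, h2, h3, h4⟩ =>
    ⟨g * g'', a, Rep.mul h h1, h2, h3, by rw [h4, mul_assoc]⟩

theorem Rep.single {Y : ℤ} {a : GaussianInt} (h2 : a ≠ 0) (h3 : a.norm ≤ Y) : Rep Y 1 a :=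
  ⟨1, a, rfl, h2, h3, (one_mul a).symm⟩

theorem Rep.mono {Y : ℤ} (hY : 1 ≤ Y) {L L' : ℕ} {g : GaussianInt} (h : Rep Y L g)
    (hL : L ≤ L') : Rep Y L' g := by
  induction L', hL using Nat.le_induction with
  | base => exact h
  | succ n _ ih => exact ⟨g, 1, ih, one_ne_zero, by simpa using hY, (mul_one g).symm⟩

theorem Rep.star {Y : ℤ} : ∀ {L : ℕ} {g : GaussianInt}, Rep Y L g → Rep Y L (star g)
  | 0, g, h => by rw [show g = 1 from h]; exact star_one _
  | L + 1, g, ⟨g', a, h1, h2, h3, h4⟩ =>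
    ⟨_, Star.star a, h1.star, by simpa using h2, by simpa using h3, by rw [h4, star_mul']⟩

theorem Rep.pow {Y : ℤ} {L : ℕ} {g : GaussianInt} (h : Rep Y L g) (k : ℕ) :
    Rep Y (k * L) (g ^ k) := by
  induction k with
  | zero => simp [Rep]
  | succ k ih => rw [pow_succ, Nat.succ_mul]; exact ih.mul h

theorem Rep.prod {Y : ℤ} {ι : Type} (s : Finset ι) (f : ι → GaussianInt)
    (h : ∀ i ∈ s, f i ≠ 0 ∧ (f i).norm ≤ Y) : Rep Y s.card (∏ i ∈ s, f i) := by
  classical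
  induction s using Finset.induction_on with
  | empty => simp [Rep]
  | insert a s ha ih =>
    rw [Finset.card_insert_of_notMem ha, Finset.prod_insert ha, mul_comm]
    exact ⟨_, f a, ih fun i hi => h i (by simp [hi]), (h a (by simp)).1, (h a (by simp)).2, rfl⟩

/-- `g` has argument `φ`. -/
def Ang (g : GaussianInt) (φ : ℝ) : Prop :=
  ∃ r : ℝ, 0 < r ∧ (g : ℂ) = r * Complex.exp (φ * Complex.I)

theorem Ang.mul {g g' : GaussianInt} {φ φ' : ℝ} (h : Ang g φ) (h' : Ang g' φ') :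
    Ang (g * g') (φ + φ') := by
  obtain ⟨r, h1, h2⟩ := h
  obtain ⟨r', h1', h2'⟩ := h'
  refine ⟨r * r', by positivity, ?_⟩
  rw [GaussianInt.toComplex_mul, h2, h2']
  push_cast
  rw [add_mul, Complex.exp_add]
  ring

theorem Ang.one : Ang 1 0 := ⟨1, one_pos, by simp⟩

theorem Ang.pow {g : GaussianInt} {φ : ℝ} (h : Ang g φ) (k : ℕ) : Ang (g ^ k) (k * φ) := by
  induction k with
  | zero => simpa using Ang.one
  | succ k ih =>
    rw [pow_succ]
    push_cast
    rw [add_mul, one_mul]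
    exact ih.mul h

theorem Ang.star {g : GaussianInt} {φ : ℝ} (h : Ang g φ) : Ang (star g) (-φ) := by
  obtain ⟨r, h1, h2⟩ := h
  refine ⟨r, h1, ?_⟩
  rw [GaussianInt.toComplex_star, h2, map_mul, Complex.conj_ofReal, ← Complex.exp_conj]
  simp

theorem Ang.arg {g : GaussianInt} (hg : g ≠ 0) : Ang g (Complex.arg g) :=
  ⟨‖(g : ℂ)‖, by simpa using hg, (Complex.norm_mul_exp_arg_mul_I _).symm⟩

theorem Ang.sl {g : GaussianInt} {φ : ℝ} (h : Ang g φ) (h0 : 0 ≤ φ) (h1 : φ ≤ 1) :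
    Sl (g : ℂ) (2 * φ) := by
  obtain ⟨r, hr, h2⟩ := h
  rw [h2, sl_smul hr.ne']
  unfold Sl
  rw [Complex.exp_ofReal_mul_I_im, Complex.exp_ofReal_mul_I_re]
  have a1 : |Real.sin φ| ≤ φ := by
    have := Real.abs_sin_le_abs (x := φ)
    rwa [abs_of_nonneg h0] at this
  have a2 := Real.one_sub_sq_div_two_le_cos (x := φ)
  have a3 : 1 / 2 ≤ |Real.cos φ| := le_trans (by nlinarith) (le_abs_self _)
  nlinarith

theorem ang_rung (n : ℕ) (hn : 1 ≤ n) :
    ∃ δ : ℝ, Ang ⟨n, 1⟩ δ ∧ 1 / (2 * n) ≤ δ ∧ δ ≤ 1 / n := by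
  have hn' : (1 : ℝ) ≤ n := by exact_mod_cast hn
  have hne : (⟨n, 1⟩ : GaussianInt) ≠ 0 := by
    intro h
    have := congrArg Zsqrtd.im h
    simp at this
  set w : ℂ := ((⟨n, 1⟩ : GaussianInt) : ℂ) with hw
  have hre : w.re = n := by rw [hw, GaussianInt.re_toComplex]; simp
  have him : w.im = 1 := by rw [hw, GaussianInt.im_toComplex]; simp
  have a0 : 0 ≤ w.arg := Complex.arg_nonneg_iff.mpr (by rw [him]; norm_num)
  have a1 : w.arg < Real.pi / 2 :=
    (abs_lt.mp (Complex.abs_arg_lt_pi_div_two_iff.mpr (Or.inl (by rw [hre]; linarith)))).2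
  refine ⟨w.arg, Ang.arg hne, ?_, ?_⟩
  · refine le_trans ?_ (Real.sin_le a0)
    rw [Complex.sin_arg, him]
    have b1 := Complex.norm_le_abs_re_add_abs_im w
    rw [hre, him, abs_one, abs_of_nonneg (by linarith)] at b1
    have b2 : 0 < ‖w‖ := by
      rw [norm_pos_iff, hw]
      simpa using hne
    apply one_div_le_one_div_of_le b2
    linarith
  · refine (Real.le_tan a0 a1).trans ?_
    rw [Complex.tan_arg, hre, him]

theorem cyc_norm (e : ℕ) (he : 0 < e) (z : GaussianInt) (t : ℕ) (hz : ‖(z : ℂ)‖ = t) :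
    ((cyclotomic e GaussianInt).eval z).norm ≤ ((t : ℤ) + 1) ^ (2 * e.totient) := by
  have e1 : (((cyclotomic e GaussianInt).eval z : GaussianInt) : ℂ)
      = (cyclotomic e ℂ).eval (z : ℂ) := by
    rw [← map_cyclotomic e GaussianInt.toComplex, eval_map, eval₂_at_apply]
  have e2 : ‖(cyclotomic e ℂ).eval (z : ℂ)‖ ≤ ((t : ℝ) + 1) ^ e.totient := by
    rw [cyclotomic_eq_prod_X_sub_primitiveRoots (Complex.isPrimitiveRoot_exp e he.ne'), eval_prod,
      norm_prod, ← Complex.card_primitiveRoots, ← Finset.prod_const]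
    apply Finset.prod_le_prod (fun _ _ => norm_nonneg _)
    intro μ hμ
    have := ((mem_primitiveRoots he).mp hμ).norm'_eq_one he.ne'
    simp only [eval_sub, eval_X, eval_C]
    refine (norm_sub_le _ _).trans ?_
    rw [hz, this]
  have e3 : ((((cyclotomic e GaussianInt).eval z).norm : ℤ) : ℝ)
      ≤ ((t : ℝ) + 1) ^ (2 * e.totient) := by
    rw [GaussianInt.intCast_real_norm, e1, Complex.normSq_eq_norm_sq, mul_comm 2, pow_mul]
    exact pow_le_pow_left₀ (norm_nonneg _) e2 2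
  exact_mod_cast e3

theorem rep_rung (D : ℕ) (hD : D % 4 = 1) (t : ℕ) (Y : ℤ)
    (hY : ((t : ℤ) + 1) ^ (2 * D.totient) ≤ Y) : Rep Y (D + 1) ⟨(t ^ D : ℕ), 1⟩ := by
  have hD0 : 0 < D := by omega
  have hY1 : 1 ≤ Y := le_trans (one_le_pow₀ (by omega)) hY
  set i : GaussianInt := ⟨0, 1⟩ with hi
  have hi4 : i ^ 4 = 1 := by rw [hi]; decide
  have hiD : i ^ D = i := by
    rw [← Nat.div_add_mod D 4, hD, pow_add, pow_mul, hi4, one_pow, one_mul, pow_one]
  have e0 : (i * t) ^ D - 1 = ⟨-1, (t ^ D : ℕ)⟩ := by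
    rw [mul_pow, hiD, ← Nat.cast_pow]
    generalize t ^ D = n
    ext <;> simp [hi]
  have e1 := congrArg (eval (i * t)) (prod_cyclotomic_eq_X_pow_sub_one hD0 GaussianInt)
  rw [eval_prod, eval_sub, eval_pow, eval_X, eval_one, e0] at e1
  have hne : (⟨-1, (t ^ D : ℕ)⟩ : GaussianInt) ≠ 0 := by
    intro h
    have := congrArg Zsqrtd.re h
    simp at this
  have r1 := Rep.prod (Y := Y) D.divisors (fun e => (cyclotomic e GaussianInt).eval (i * t)) (by
    intro e he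
    constructor
    · rw [← e1] at hne
      exact Finset.prod_ne_zero_iff.mp hne e he
    · have he0 := Nat.pos_of_mem_divisors he
      refine (cyc_norm e he0 (i * t) t ?_).trans (le_trans ?_ hY)
      · simp [hi, GaussianInt.toComplex_def']
      · apply pow_le_pow_right₀ (by omega)
        have := Nat.le_of_dvd (Nat.totient_pos.mpr hD0)
          (Nat.totient_dvd_of_dvd (Nat.dvd_of_mem_divisors he))
        omega)
  rw [e1] at r1
  have r2 := r1.mono hY1 (Nat.card_divisors_le_self D)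
  refine ⟨_, ⟨0, -1⟩, r2, by decide, by simpa [norm_eq] using hY1, ?_⟩
  ext <;> simp

theorem greedy (D : ℕ) (hD : D % 4 = 1) (M : ℕ) (Y : ℤ)
    (hY : ((2 : ℤ) ^ M + 1) ^ (2 * D.totient) ≤ Y) (ψ : ℝ) (h0 : 0 ≤ ψ) (h1 : ψ ≤ 1) (m : ℕ)
    (hm : m ≤ M) : ∃ (g : GaussianInt) (φ : ℝ), Rep Y (m * (2 ^ (D + 1) * (D + 1))) g ∧ Ang g φ ∧
      0 ≤ ψ - φ ∧ ψ - φ ≤ 1 / ((2 : ℝ) ^ m) ^ D := by
  have hY1 : 1 ≤ Y := le_trans (one_le_pow₀ (by have := pow_pos (show (0 : ℤ) < 2 by norm_num) M; omega)) hY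
  induction m with
  | zero => exact ⟨1, 0, by simp [Rep], Ang.one, by simpa using h0, by simpa using h1⟩
  | succ m ih =>
    obtain ⟨g, φ, a1, a2, a3, a4⟩ := ih (by omega)
    have hr := rep_rung D hD (2 ^ (m + 1)) Y (by
      refine le_trans (pow_le_pow_left₀ (by positivity) ?_ _) hY
      push_cast
      have := pow_le_pow_right₀ (show (1 : ℤ) ≤ 2 by norm_num) hm
      omega)
    obtain ⟨δ, b1, b2, b3⟩ := ang_rung ((2 ^ (m + 1)) ^ D) (Nat.one_le_pow _ _ (by positivity))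
    push_cast at b2 b3
    have hδ : 0 < δ := lt_of_lt_of_le (by positivity) b2
    set k := ⌊(ψ - φ) / δ⌋₊ with hk
    have c1 : (k : ℝ) ≤ (ψ - φ) / δ := Nat.floor_le (by positivity)
    have c2 : (ψ - φ) / δ < k + 1 := Nat.lt_floor_add_one _
    rw [le_div_iff₀ hδ] at c1
    rw [div_lt_iff₀ hδ] at c2
    have c3 : k ≤ 2 ^ (D + 1) := by
      have d1 : (k : ℝ) * (1 / (2 * ((2 : ℝ) ^ (m + 1)) ^ D)) ≤ 1 / ((2 : ℝ) ^ m) ^ D :=
        le_trans (mul_le_mul_of_nonneg_left b2 (by positivity)) (c1.trans a4)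
      rw [mul_one_div, div_le_div_iff₀ (by positivity) (by positivity), pow_succ (2 : ℝ) m,
        mul_pow] at d1
      have d2 : (k : ℝ) * ((2 : ℝ) ^ m) ^ D ≤ 2 ^ (D + 1) * ((2 : ℝ) ^ m) ^ D := by
        rw [pow_succ]; linarith
      have d3 : (k : ℝ) ≤ 2 ^ (D + 1) := le_of_mul_le_mul_right d2 (by positivity)
      exact_mod_cast d3
    refine ⟨g * (⟨((2 ^ (m + 1)) ^ D : ℕ), 1⟩ : GaussianInt) ^ k, φ + k * δ, ?_,
      a2.mul (b1.pow k), by linarith, by linarith⟩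
    rw [Nat.succ_mul]
    exact a1.mul ((hr.pow k).mono hY1 (Nat.mul_le_mul_right _ c3))

/-- A product of few small Gaussian integers that is almost real and has odd parity. -/
theorem ladder {G : GaussianInt → ZMod 2} (hG : IsPar G) (D : ℕ) (hD : D % 4 = 1) (M : ℕ)
    (hM : 1 ≤ M) (Y : ℤ) (hY : ((2 : ℤ) ^ M + 1) ^ (2 * D.totient) ≤ Y) (a : GaussianInt)
    (ha : a ≠ 0) (h1 : 0 ≤ a.re) (h2 : 0 ≤ a.im) (h3 : a.norm ≤ Y) (h4 : G a = 1) :
    ∃ g : GaussianInt, Rep Y (1 + 2 * (M * (2 ^ (D + 1) * (D + 1)))) g ∧ G g = 1 ∧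
      Sl (g : ℂ) (4 / ((2 : ℝ) ^ M) ^ D) := by
  have a0 : 0 ≤ Complex.arg a := Complex.arg_nonneg_iff.mpr (by
    rw [← GaussianInt.intCast_im]; exact_mod_cast h2)
  have a1 : Complex.arg a ≤ Real.pi / 2 := (abs_le.mp (Complex.abs_arg_le_pi_div_two_iff.mpr (by
    rw [← GaussianInt.intCast_re]; exact_mod_cast h1))).2
  obtain ⟨g, φ, b1, b2, b3, b4⟩ := greedy D hD M Y hY (Complex.arg a / 2) (by linarith)
    (by linarith [Real.pi_le_four]) M le_rfl
  have hg : star g ≠ 0 := b1.star.ne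
  refine ⟨a * star g ^ 2, (Rep.single ha h3).mul (b1.star.pow 2), ?_, ?_⟩
  · rw [hG.mul _ _ ha (pow_ne_zero _ hg), sq, hG.mul _ _ hg hg, h4]
    generalize G (star g) = x
    revert x; decide
  · have c1 := (Ang.arg ha).mul (b2.star.pow 2)
    have c2 : (2 : ℝ) ≤ ((2 : ℝ) ^ M) ^ D := by
      rw [← pow_mul]
      calc (2 : ℝ) = 2 ^ 1 := by norm_num
        _ ≤ _ := pow_le_pow_right₀ (by norm_num) (Nat.mul_pos (by omega) (by omega))
    have c3 : 1 / ((2 : ℝ) ^ M) ^ D ≤ 1 / 2 := one_div_le_one_div_of_le (by norm_num) c2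
    have c4 := c1.sl (by push_cast; linarith) (by push_cast; linarith)
    refine c4.mono ?_
    push_cast
    have : 4 / ((2 : ℝ) ^ M) ^ D = 4 * (1 / ((2 : ℝ) ^ M) ^ D) := by ring
    linarith

/-- Integers `D ≡ 1 mod 4` with small totient. -/
theorem exists_D (J : ℕ) : ∃ D : ℕ, D % 4 = 1 ∧ J * D.totient ≤ D := by
  classical
  have h1 : ∃ s : Finset ℕ, (∀ p ∈ s, p.Prime ∧ p ≠ 2) ∧ (J : ℝ) ≤ ∑ p ∈ s, (1 : ℝ) / p := by
    by_contra hc
    push Not at hc
    apply not_summable_one_div_on_primes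
    refine summable_of_sum_le (c := J + 1 / 2) ?_ ?_
    · intro n
      simp only [Set.indicator, Pi.zero_apply]
      split_ifs <;> positivity
    · intro u
      have e1 : ∑ x ∈ u, Set.indicator {p | p.Prime} (fun n : ℕ ↦ (1 : ℝ) / n) x
          = ∑ x ∈ u.filter Nat.Prime, (1 : ℝ) / x := by
        rw [Finset.sum_filter]
        apply Finset.sum_congr rfl
        intro x _
        simp [Set.indicator]
      have e2 := hc ((u.filter Nat.Prime).erase 2) (by
        intro p hp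
        rw [Finset.mem_erase, Finset.mem_filter] at hp
        exact ⟨hp.2.2, hp.1⟩)
      rw [e1]
      by_cases h2 : 2 ∈ u.filter Nat.Prime
      · rw [← Finset.add_sum_erase _ _ h2]
        push_cast
        linarith
      · rw [Finset.erase_eq_of_notMem h2] at e2
        linarith
  obtain ⟨s, hs, hJ⟩ := h1
  have hodd : Odd (∏ p ∈ s, p) := by
    apply Finset.prod_induction _ Odd (fun a b => Odd.mul) odd_one
    intro p hp
    exact (hs p hp).1.odd_of_ne_two (hs p hp).2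
  refine ⟨(∏ p ∈ s, p) ^ 2, ?_, ?_⟩
  · obtain ⟨k, hk⟩ := hodd
    rw [hk, show (2 * k + 1) ^ 2 = 4 * (k ^ 2 + k) + 1 by ring]
    omega
  · have e1 := Nat.totient_eq_mul_prod_factors ((∏ p ∈ s, p) ^ 2)
    rw [Nat.primeFactors_pow _ (by norm_num), Nat.primeFactors_prod fun p hp => (hs p hp).1] at e1
    generalize (∏ p ∈ s, p) ^ 2 = D at e1
    have e2 : (D.totient : ℝ) = D * ∏ p ∈ s, (1 - (p : ℝ)⁻¹) := by
      have := congrArg (fun x : ℚ => (x : ℝ)) e1
      simpa using this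
    have e3 : ∏ p ∈ s, (1 - (p : ℝ)⁻¹) ≤ Real.exp (-∑ p ∈ s, (1 : ℝ) / p) := by
      rw [← Finset.sum_neg_distrib, Real.exp_sum]
      apply Finset.prod_le_prod
      · intro p hp
        have : (1 : ℝ) ≤ p := by exact_mod_cast (hs p hp).1.one_le
        have := inv_le_one_of_one_le₀ this
        linarith
      · intro p _
        have := Real.add_one_le_exp (-(1 / (p : ℝ)))
        rw [one_div] at this ⊢
        linarith
    have e4 : (J : ℝ) * Real.exp (-∑ p ∈ s, (1 : ℝ) / p) ≤ 1 := by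
      rw [Real.exp_neg, ← div_eq_mul_inv, div_le_one (Real.exp_pos _)]
      have := Real.add_one_le_exp (∑ p ∈ s, (1 : ℝ) / p)
      linarith
    have e5 : (J : ℝ) * D.totient ≤ D := by
      rw [e2]
      have f1 : (J : ℝ) * ∏ p ∈ s, (1 - (p : ℝ)⁻¹) ≤ 1 :=
        le_trans (mul_le_mul_of_nonneg_left e3 (by positivity)) e4
      have f2 : (0 : ℝ) ≤ D := by positivity
      nlinarith
    exact_mod_cast e5

end Pool.Agent.H638Z.Par
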