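import Pool.Agent.H638Z.Par.Core
import Pool.Agent.H510R2.Div

/-! Choice of parameters and the final bound. -/

set_option autoImplicit false

namespace Pool.Agent.H638Z.Par

theorem mid {G : GaussianInt → ZMod 2} (hG : IsPar G) (X L Y : ℕ) (hX : 1 ≤ X)
    (g : GaussianInt) (hR : Rep Y L g) (hg : G g = 1) (hsl : Sl (g : ℂ) (4 / X)) (hY : 1 ≤ Y) :
    (X : ℝ) ≤ 400000 * Y * (L + 1) ^ 2 *
      ((∑ n ∈ odds G X, (n ^ 2 + 1).divisors.card : ℕ) + 1) := by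
  obtain ⟨S, hS⟩ : ∃ S : ℕ, S = ∑ n ∈ odds G X, (n ^ 2 + 1).divisors.card := ⟨_, rfl⟩
  rw [← hS]
  obtain ⟨Q, hQ⟩ : ∃ Q : ℕ, Q = Nat.sqrt (X / (2 * Y)) := ⟨_, rfl⟩
  obtain ⟨W, hW⟩ : ∃ W : ℕ, W = 144 * (L + 1) := ⟨_, rfl⟩
  have q1 : 2 * Q ^ 2 * Y ≤ X := by
    have a1 := Nat.sqrt_le' (X / (2 * Y))
    have a2 := Nat.mul_div_le X (2 * Y)
    rw [← hQ] at a1
    nlinarith
  have q2 : X < 2 * Y * (Q + 1) ^ 2 := by
    have a1 := Nat.lt_succ_sqrt' (X / (2 * Y))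
    have a2 := Nat.lt_mul_div_succ X (show 0 < 2 * Y by omega)
    rw [← hQ, Nat.succ_eq_add_one] at a1
    exact lt_of_lt_of_le a2 (Nat.mul_le_mul_left _ a1)
  have hL : 1 ≤ L + 1 := by omega
  by_cases hc : Q ^ 2 < 18 * W
  · have : X ≤ 400000 * Y * (L + 1) ^ 2 * (S + 1) := by
      have a1 : (Q + 1) ^ 2 ≤ 2 * Q ^ 2 + 2 := by nlinarith [sq_nonneg ((Q : ℤ) - 1)]
      have a2 : (Q + 1) ^ 2 ≤ 6000 * (L + 1) := by omega
      have a3 : L + 1 ≤ (L + 1) ^ 2 * (S + 1) := by nlinarith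
      have a4 : X ≤ 2 * Y * (6000 * (L + 1)) := q2.le.trans (Nat.mul_le_mul_left _ a2)
      nlinarith
    exact_mod_cast this
  push Not at hc
  have hQ6 : 6 ≤ Q := by
    by_contra h
    have : Q ^ 2 ≤ 5 ^ 2 := Nat.pow_le_pow_left (by omega) 2
    omega
  have hQ' : (6 : ℝ) ≤ Q := by exact_mod_cast hQ6
  have hW0 : 0 < W := by omega
  have hW' : (1 : ℝ) ≤ W := by exact_mod_cast hW0
  have hX' : (1 : ℝ) ≤ X := by exact_mod_cast hX
  have hY' : (1 : ℝ) ≤ Y := by exact_mod_cast hY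
  have q1' : 2 * (Q : ℝ) ^ 2 * Y ≤ X := by exact_mod_cast q1
  have m1 : (Q : ℝ) ≤ W * ((Q / W : ℕ) + 1) := by
    exact_mod_cast (Nat.lt_mul_div_succ Q hW0).le
  have m2 : (W : ℝ) * (Q / W : ℕ) ≤ Q := by exact_mod_cast Nat.mul_div_le Q W
  have hc' : 18 * (W : ℝ) ≤ Q ^ 2 := by exact_mod_cast hc
  have key := core hG X Q (Q / W) L Y (2 * W / Q ^ 2) g hR hg (hsl.mono (by
      rw [div_le_div_iff₀ (by positivity) (by positivity)]
      nlinarith [mul_nonneg (sub_nonneg.mpr hY') (sq_nonneg (Q : ℝ))]))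
    (by exact_mod_cast hY) (by exact_mod_cast q1) hQ6 (by
      rw [div_le_div_iff₀ (by positivity) (by positivity)]
      nlinarith) (by
      rw [div_le_div_iff₀ (by positivity) (by positivity)]
      linarith)
  rw [← hS] at key
  have hWL : (W : ℝ) = 144 * (L + 1) := by rw [hW]; push_cast; ring
  have k1 : (L + 1 : ℝ) * (6 * (12 * (Q / W : ℕ) / Q)) ≤ 1 / 2 := by
    rw [show (L + 1 : ℝ) * (6 * (12 * (Q / W : ℕ) / Q)) = (144 * (L + 1) * (Q / W : ℕ)) / (2 * Q) by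
      field_simp; ring, ← hWL, div_le_div_iff₀ (by positivity) (by positivity)]
    linarith
  have k2 : 1 / 2 ≤ (L + 1 : ℝ) * (6 * (12 * (2 * W / Q ^ 2) * S)) := by nlinarith
  have k3 : (Q : ℝ) ^ 2 ≤ 288 * 144 * (L + 1) ^ 2 * S := by
    rw [show (L + 1 : ℝ) * (6 * (12 * (2 * W / Q ^ 2) * S)) = (144 * (L + 1) * W * S) / Q ^ 2 by
      field_simp; ring, div_le_div_iff₀ (by positivity) (by positivity), hWL] at k2
    linarith
  have q3 : (X : ℝ) ≤ 8 * Y * Q ^ 2 := by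
    have a1 : (X : ℝ) ≤ 2 * Y * (Q + 1) ^ 2 := by exact_mod_cast q2.le
    have a2 : ((Q : ℝ) + 1) ^ 2 ≤ 4 * Q ^ 2 := by nlinarith
    nlinarith
  have k4 := mul_le_mul_of_nonneg_left k3 (show (0 : ℝ) ≤ 8 * Y by positivity)
  have k5 : 0 ≤ (Y : ℝ) * (L + 1) ^ 2 := by positivity
  have k6 : 0 ≤ (Y : ℝ) * (L + 1) ^ 2 * S := by positivity
  nlinarith

theorem main_nat (J : ℕ) (hJ : 1 ≤ J) : ∃ C : ℝ, 0 < C ∧ ∀ X : ℕ, 2 ≤ X → ∀ y : ℝ, 1 ≤ y →
    y ^ J = X → ∀ G : GaussianInt → ZMod 2, IsPar G → ∀ a : GaussianInt, a ≠ 0 → 0 ≤ a.re →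
      0 ≤ a.im → (a.norm : ℝ) ≤ y → G a = 1 → (X : ℝ) ≤ C * y ^ 5 * ((odds G X).card + 1) := by
  obtain ⟨D, hD, hJD⟩ := exists_D J
  have hJ' : (1 : ℝ) ≤ J := by exact_mod_cast hJ
  obtain ⟨Cd, hCd, hdiv⟩ := Pool.Agent.H510R2.divisor_bound (1 / (2 * J)) (by positivity)
  obtain ⟨K, hK⟩ : ∃ K : ℕ, K = 2 ^ (D + 1) * (D + 1) := ⟨_, rfl⟩
  refine ⟨400000 * (16 ^ D.totient + 1) * (2 + 2 * K) ^ 2 * (2 * Cd + 1), by positivity, ?_⟩
  intro X hX y hy hyX G hG a ha h1 h2 h3 h4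
  have hD0 : 0 < D := by omega
  have hφ : 0 < D.totient := Nat.totient_pos.mpr hD0
  have hb : 1 < 2 ^ D := Nat.one_lt_two_pow (by omega)
  have c1 := Nat.le_pow_clog hb X
  have c2 := Nat.pow_pred_clog_lt_self hb (show 1 < X by omega)
  have c3 := Nat.clog_pos hb (show 1 < X by omega)
  obtain ⟨M, hM⟩ : ∃ M, Nat.clog (2 ^ D) X = M + 1 := ⟨Nat.clog (2 ^ D) X - 1, by omega⟩
  rw [hM] at c1 c2
  simp only [Nat.pred_eq_sub_one, Nat.add_sub_cancel] at c2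
  have t1 : ((2 : ℝ) ^ M) ^ D.totient ≤ y := by
    apply le_of_pow_le_pow_left₀ (n := J) (by omega) (by linarith)
    rw [hyX, ← pow_mul]
    calc ((2 : ℝ) ^ M) ^ (D.totient * J) ≤ ((2 : ℝ) ^ M) ^ D :=
          pow_le_pow_right₀ (one_le_pow₀ (by norm_num)) (by rw [mul_comm]; exact hJD)
      _ = ((2 ^ D) ^ M : ℕ) := by push_cast; rw [← pow_mul, ← pow_mul, mul_comm]
      _ ≤ X := by exact_mod_cast c2.le
  have t2 : ((M + 1 : ℕ) : ℝ) ≤ y := by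
    have a1 : ((M + 1 : ℕ) : ℝ) ≤ (2 : ℝ) ^ M := by exact_mod_cast Nat.lt_two_pow_self
    exact a1.trans ((le_self_pow₀ (one_le_pow₀ (by norm_num)) hφ.ne').trans t1)
  obtain ⟨Y, hY⟩ : ∃ Y : ℕ, Y = (2 ^ (M + 1) + 1) ^ (2 * D.totient) + a.norm.natAbs := ⟨_, rfl⟩
  have pa := GaussianInt.norm_nonneg a
  have hYz : (Y : ℤ) = (2 ^ (M + 1) + 1) ^ (2 * D.totient) + a.norm := by
    rw [hY]; push_cast; rw [abs_of_nonneg pa]
  have hp : (0 : ℤ) < (2 ^ (M + 1) + 1) ^ (2 * D.totient) := by positivity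
  obtain ⟨g, g1, g2, g3⟩ := ladder hG D hD (M + 1) (by omega) Y (by omega) a ha h1 h2 (by omega) h4
  rw [← hK] at g1
  have hX' : (2 : ℝ) ≤ X := by exact_mod_cast hX
  have key := mid hG X _ Y (by omega) g g1 g2 (g3.mono (by
    apply div_le_div_of_nonneg_left (by norm_num) (by positivity)
    rw [← pow_mul, mul_comm, pow_mul]
    exact_mod_cast c1)) (by omega)
  have b1 : (Y : ℝ) ≤ (16 ^ D.totient + 1) * y ^ 2 := by
    have a1 : (Y : ℝ) = (2 ^ (M + 1) + 1) ^ (2 * D.totient) + a.norm := by exact_mod_cast hYz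
    have a2 : ((2 : ℝ) ^ (M + 1) + 1) ^ (2 * D.totient) ≤ (4 * 2 ^ M) ^ (2 * D.totient) := by
      apply pow_le_pow_left₀ (by positivity)
      have : (1 : ℝ) ≤ 2 ^ M := one_le_pow₀ (by norm_num)
      rw [pow_succ]
      linarith
    have a3 : ((4 : ℝ) * 2 ^ M) ^ (2 * D.totient)
        = 16 ^ D.totient * (((2 : ℝ) ^ M) ^ D.totient) ^ 2 := by
      rw [mul_pow, pow_mul, mul_comm 2, pow_mul]
      norm_num
    have a4 : (((2 : ℝ) ^ M) ^ D.totient) ^ 2 ≤ y ^ 2 := pow_le_pow_left₀ (by positivity) t1 2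
    have a5 := mul_le_mul_of_nonneg_left a4 (show (0 : ℝ) ≤ 16 ^ D.totient by positivity)
    nlinarith
  have b2 : (((1 + 2 * ((M + 1) * K) : ℕ) : ℝ) + 1) ≤ (2 + 2 * K) * y := by
    push_cast at t2 ⊢
    have : (0 : ℝ) ≤ K := by positivity
    nlinarith
  have b3 : ((∑ n ∈ odds G X, (n ^ 2 + 1).divisors.card : ℕ) : ℝ)
      ≤ (odds G X).card * (2 * Cd * y) := by
    push_cast
    rw [← nsmul_eq_mul]
    apply Finset.sum_le_card_nsmul
    intro n hn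
    have n2 : n ≤ X := by
      unfold odds at hn
      exact (Finset.mem_Icc.mp (Finset.mem_filter.mp hn).1).2
    refine (hdiv _ (by omega)).trans ?_
    have a1 : ((n ^ 2 + 1 : ℕ) : ℝ) ≤ (2 * y) ^ (2 * J) := by
      have n3 : (n : ℝ) ≤ X := by exact_mod_cast n2
      have n4 : (0 : ℝ) ≤ n := by positivity
      rw [mul_pow, mul_comm 2 J, pow_mul y, hyX]
      have : (2 : ℝ) ≤ 2 ^ (J * 2) := le_self_pow₀ (by norm_num) (by omega)
      push_cast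
      nlinarith
    have a2 : ((n ^ 2 + 1 : ℕ) : ℝ) ^ (1 / (2 * (J : ℝ))) ≤ 2 * y := by
      refine (Real.rpow_le_rpow (by positivity) a1 (by positivity)).trans (le_of_eq ?_)
      rw [one_div, show 2 * (J : ℝ) = ((2 * J : ℕ) : ℝ) by push_cast; ring]
      exact Real.pow_rpow_inv_natCast (by positivity) (by omega)
    nlinarith
  have b4 : ((∑ n ∈ odds G X, (n ^ 2 + 1).divisors.card : ℕ) : ℝ) + 1
      ≤ (2 * Cd + 1) * y * ((odds G X).card + 1) := by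
    have : (0 : ℝ) ≤ (odds G X).card := by positivity
    nlinarith [mul_nonneg hCd.le (show (0 : ℝ) ≤ y by linarith)]
  refine key.trans ?_
  calc _ ≤ 400000 * ((16 ^ D.totient + 1) * y ^ 2) * ((2 + 2 * K) * y) ^ 2 *
        ((2 * Cd + 1) * y * ((odds G X).card + 1)) := by gcongr
    _ = _ := by ring

/-- The parity function attached to a set of primes. -/
def parP (P : ℕ → Bool) (v : GaussianInt) : ZMod 2 :=
  ((v.norm.natAbs.primeFactorsList.countP P : ℕ) : ZMod 2)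

theorem count_mul (P : ℕ → Bool) {a b : ℕ} (ha : a ≠ 0) (hb : b ≠ 0) :
    (a * b).primeFactorsList.countP P = a.primeFactorsList.countP P + b.primeFactorsList.countP P := by
  rw [(Nat.perm_primeFactorsList_mul ha hb).countP_eq, List.countP_append]

theorem isPar_parP (P : ℕ → Bool) : IsPar (parP P) where
  mul := by
    intro u v hu hv
    unfold parP
    rw [Zsqrtd.norm_mul, Int.natAbs_mul, count_mul P (by simpa using hu) (by simpa using hv)]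
    push_cast
    rfl
  nrm := by
    intro u v h
    unfold parP
    rw [h]
  int := by
    intro u hu h
    have hr : u.re.natAbs ≠ 0 := by
      intro h0
      apply hu
      ext
      · simpa using h0
      · simpa using h
    unfold parP
    rw [norm_eq, h, show u.re ^ 2 + 0 ^ 2 = u.re * u.re by ring, Int.natAbs_mul, count_mul P hr hr]
    push_cast
    generalize ((List.countP P u.re.natAbs.primeFactorsList : ℕ) : ZMod 2) = x
    revert x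
    decide

theorem odds_parP (P : ℕ → Bool) (X : ℕ) : odds (parP P) X =
    (Finset.Icc 1 X).filter fun m => Odd ((m ^ 2 + 1).primeFactorsList.countP P) := by
  unfold odds
  ext m
  simp only [Finset.mem_filter]
  have e : (⟨m, 1⟩ : GaussianInt).norm.natAbs = m ^ 2 + 1 := by
    rw [norm_eq]
    zify
    rw [abs_of_nonneg (by positivity)]
    simp
  unfold parP
  rw [e, ZMod.natCast_eq_one_iff_odd]

theorem final (ε : ℝ) (hε : 0 < ε) : ∃ η : ℝ, 0 < η ∧ ∀ᶠ X : ℕ in Filter.atTop,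
    ∀ P : ℕ → Bool, (∃ p : ℕ, p.Prime ∧ p % 4 ≠ 3 ∧ P p = true ∧ (p : ℝ) ≤ (X : ℝ) ^ η) →
      (X : ℝ) ^ (1 - ε) ≤ (((Finset.Icc 1 X).filter
        fun m => Odd ((m ^ 2 + 1).primeFactorsList.countP P)).card : ℝ) := by
  obtain ⟨e, he0, he1, he2⟩ : ∃ e : ℝ, 0 < e ∧ e ≤ 1 ∧ e ≤ ε :=
    ⟨min 1 ε, lt_min one_pos hε, min_le_left _ _, min_le_right _ _⟩
  obtain ⟨J, hJ⟩ := exists_nat_ge (10 / e)
  have hJ1 : (10 : ℝ) ≤ J := le_trans (by rw [le_div_iff₀ he0]; linarith) hJ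
  have hJ2 : 1 ≤ J := by
    have : (1 : ℝ) ≤ J := by linarith
    exact_mod_cast this
  obtain ⟨C, hC, hmain⟩ := main_nat J hJ2
  refine ⟨(J : ℝ)⁻¹, by positivity, ?_⟩
  have ht : Filter.Tendsto (fun X : ℕ => (X : ℝ) ^ (e / 2)) Filter.atTop Filter.atTop :=
    (tendsto_rpow_atTop (by positivity)).comp tendsto_natCast_atTop_atTop
  filter_upwards [Filter.eventually_ge_atTop 2, ht.eventually_ge_atTop (2 * C)] with X hX hXC
  rintro P ⟨p, hp, hp4, hP, hpX⟩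
  have hX' : (2 : ℝ) ≤ X := by exact_mod_cast hX
  have := Fact.mk hp
  obtain ⟨a, b, hab⟩ := Nat.Prime.sq_add_sq hp4
  have hn : (⟨a, b⟩ : GaussianInt).norm = p := by rw [norm_eq, ← hab]; simp
  have key := hmain X hX ((X : ℝ) ^ (J : ℝ)⁻¹) (Real.one_le_rpow (by linarith) (by positivity))
    (Real.rpow_inv_natCast_pow (by linarith) (by omega)) (parP P) (isPar_parP P) ⟨a, b⟩
    (by
      rw [← GaussianInt.norm_pos, hn]
      exact_mod_cast hp.pos) (by simp) (by simp) (by rw [hn]; exact_mod_cast hpX)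
    (by
      unfold parP
      rw [hn, Int.natAbs_natCast, Nat.primeFactorsList_prime hp]
      simp [hP])
  rw [odds_parP] at key
  generalize (((Finset.Icc 1 X).filter
        fun m => Odd ((m ^ 2 + 1).primeFactorsList.countP P)).card : ℝ) = N at key ⊢
  by_contra hc
  push Not at hc
  have a1 : (X : ℝ) ^ (1 - ε) ≤ (X : ℝ) ^ (1 - e) :=
    Real.rpow_le_rpow_of_exponent_le (by linarith) (by linarith)
  have a2 : (1 : ℝ) ≤ (X : ℝ) ^ (1 - e) := Real.one_le_rpow (by linarith) (by linarith)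
  have a3 : ((X : ℝ) ^ (J : ℝ)⁻¹) ^ 5 ≤ (X : ℝ) ^ (e / 2) := by
    rw [← Real.rpow_natCast, ← Real.rpow_mul (by linarith)]
    apply Real.rpow_le_rpow_of_exponent_le (by linarith)
    rw [div_le_iff₀ he0] at hJ
    rw [inv_mul_eq_div, div_le_div_iff₀ (by linarith) (by norm_num)]
    push_cast
    linarith
  have a4 : (X : ℝ) = (X : ℝ) ^ (e / 2) * (X : ℝ) ^ (e / 2) * (X : ℝ) ^ (1 - e) := by
    rw [← Real.rpow_add (by linarith), ← Real.rpow_add (by linarith)]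
    simp
  have a5 : 0 < ((X : ℝ) ^ (J : ℝ)⁻¹) ^ 5 := by positivity
  have a6 : C * ((X : ℝ) ^ (J : ℝ)⁻¹) ^ 5 * (N + 1)
      < C * ((X : ℝ) ^ (J : ℝ)⁻¹) ^ 5 * (2 * (X : ℝ) ^ (1 - e)) :=
    mul_lt_mul_of_pos_left (by linarith) (by positivity)
  have a7 : C * ((X : ℝ) ^ (J : ℝ)⁻¹) ^ 5 * (2 * (X : ℝ) ^ (1 - e))
      ≤ (X : ℝ) ^ (e / 2) * (X : ℝ) ^ (e / 2) * (X : ℝ) ^ (1 - e) := by
    rw [show C * ((X : ℝ) ^ (J : ℝ)⁻¹) ^ 5 * (2 * (X : ℝ) ^ (1 - e))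
      = (2 * C) * ((X : ℝ) ^ (J : ℝ)⁻¹) ^ 5 * (X : ℝ) ^ (1 - e) by ring]
    gcongr
  linarith

end Pool.Agent.H638Z.Par
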