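import Mathlib

/-! Parity of prime factors of `m^2+1`: the sail lemma and the fibre lemma. -/

set_option autoImplicit false

namespace Pool.Agent.H638Z.Par

/-- A parity function on nonzero Gaussian integers. -/
structure IsPar (G : GaussianInt → ZMod 2) : Prop where
  mul : ∀ u v : GaussianInt, u ≠ 0 → v ≠ 0 → G (u * v) = G u + G v
  nrm : ∀ u v : GaussianInt, u.norm = v.norm → G u = G v
  int : ∀ u : GaussianInt, u ≠ 0 → u.im = 0 → G u = 0

/-- The determinant of two Gaussian integers. -/
def det (u v : GaussianInt) : ℤ := u.re * v.im - u.im * v.re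

/-- The inner product of two Gaussian integers. -/
def inn (u v : GaussianInt) : ℤ := u.re * v.re + u.im * v.im

theorem norm_eq (u : GaussianInt) : u.norm = u.re ^ 2 + u.im ^ 2 := by
  rw [Zsqrtd.norm_def]; ring

theorem star_mul_eq (u v : GaussianInt) : star u * v = ⟨inn u v, det u v⟩ := by
  ext
  · simp [inn]
  · simp [det]; ring

theorem IsPar.star {G : GaussianInt → ZMod 2} (h : IsPar G) (u : GaussianInt) :
    G (star u) = G u := h.nrm _ _ (by simp)

theorem IsPar.neg {G : GaussianInt → ZMod 2} (h : IsPar G) (u : GaussianInt) :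
    G (-u) = G u := h.nrm _ _ (by simp)

theorem IsPar.add_eq {G : GaussianInt → ZMod 2} (h : IsPar G) {u v : GaussianInt} (hu : u ≠ 0)
    (hv : v ≠ 0) : G u + G v = G ⟨inn u v, det u v⟩ := by
  rw [← star_mul_eq, h.mul _ _ (by simpa using hu) hv, h.star]

theorem zmod2_ne {a b : ZMod 2} (h : a ≠ b) : a + b = 1 := by
  revert a b; decide

theorem zmod2_eq {a b : ZMod 2} (h : a + b = 0) : a = b := by
  revert a b; decide

theorem zmod2_or {a b c : ZMod 2} (h : a ≠ b) : a ≠ c ∨ c ≠ b := by
  revert a b c; decide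

/-- A lattice point in the triangle spanned by two vectors of determinant at least two. -/
theorem exists_mid (u v : GaussianInt) (m : ℤ) (hm : 2 ≤ m) (hd : det u v = m) :
    ∃ (w : GaussianInt) (A B : ℤ), 0 ≤ A ∧ 0 ≤ B ∧ A < m ∧ B < m ∧ A + B ≤ m ∧ 0 < A + B ∧
      m * w.re = A * u.re + B * v.re ∧ m * w.im = A * u.im + B * v.im := by
  have key : ∀ (w : GaussianInt) (A B : ℤ), 0 ≤ A → 0 ≤ B → A < m → B < m → 0 < A + B →
      m * w.re = A * u.re + B * v.re → m * w.im = A * u.im + B * v.im →
      ∃ (w : GaussianInt) (A B : ℤ), 0 ≤ A ∧ 0 ≤ B ∧ A < m ∧ B < m ∧ A + B ≤ m ∧ 0 < A + B ∧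
        m * w.re = A * u.re + B * v.re ∧ m * w.im = A * u.im + B * v.im := by
    intro w A B h1 h2 h3 h4 h5 h6 h7
    by_cases hc : A + B ≤ m
    · exact ⟨w, A, B, h1, h2, h3, h4, hc, h5, h6, h7⟩
    · refine ⟨u + v - w, m - A, m - B, by omega, by omega, by omega, by omega, by omega, by omega,
        ?_, ?_⟩
      · simp only [Zsqrtd.re_sub, Zsqrtd.re_add]; linear_combination -h6
      · simp only [Zsqrtd.im_sub, Zsqrtd.im_add]; linear_combination -h7
  have hm0 : m ≠ 0 := by omega
  have hp : ∀ x : ℤ, 0 ≤ x % m ∧ x % m < m ∧ x = m * (x / m) + x % m := fun x =>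
    ⟨Int.emod_nonneg x hm0, Int.emod_lt_of_pos x (by omega), (Int.mul_ediv_add_emod x m).symm⟩
  unfold det at hd
  by_cases h1 : 0 < v.im % m + (-u.im) % m
  · obtain ⟨a1, a2, a3⟩ := hp v.im
    obtain ⟨b1, b2, b3⟩ := hp (-u.im)
    refine key ⟨1 - (v.im / m) * u.re - ((-u.im) / m) * v.re,
      -(v.im / m) * u.im - ((-u.im) / m) * v.im⟩ _ _ a1 b1 a2 b2 h1 ?_ ?_
    · simp only
      linear_combination (-1) * hd + u.re * a3 + v.re * b3
    · simp only
      linear_combination u.im * a3 + v.im * b3
  by_cases h2 : 0 < (-v.re) % m + u.re % m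
  · obtain ⟨a1, a2, a3⟩ := hp (-v.re)
    obtain ⟨b1, b2, b3⟩ := hp u.re
    refine key ⟨-((-v.re) / m) * u.re - (u.re / m) * v.re,
      1 - ((-v.re) / m) * u.im - (u.re / m) * v.im⟩ _ _ a1 b1 a2 b2 h2 ?_ ?_
    · simp only
      linear_combination u.re * a3 + v.re * b3
    · simp only
      linear_combination (-1) * hd + u.im * a3 + v.im * b3
  exfalso
  obtain ⟨a1, a2, a3⟩ := hp v.im
  obtain ⟨b1, b2, b3⟩ := hp (-u.im)
  obtain ⟨c1, c2, c3⟩ := hp (-v.re)
  obtain ⟨d1, d2, d3⟩ := hp u.re
  have e1 : v.im % m = 0 := by omega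
  have e2 : (-u.im) % m = 0 := by omega
  have e3 : (-v.re) % m = 0 := by omega
  have e4 : u.re % m = 0 := by omega
  rw [e1] at a3; rw [e2] at b3; rw [e3] at c3; rw [e4] at d3
  generalize v.im / m = p at a3
  generalize (-u.im) / m = q at b3
  generalize (-v.re) / m = r at c3
  generalize u.re / m = s at d3
  have e5 : m * (m * (s * p - q * r) - 1) = 0 := by
    have f1 : u.im = -(m * q) := by omega
    have f2 : v.re = -(m * r) := by omega
    rw [a3, d3, f1, f2] at hd
    linear_combination hd
  have e6 : m * (s * p - q * r) = 1 := by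
    rcases mul_eq_zero.mp e5 with h | h
    · exact absurd h hm0
    · omega
  have := Int.le_of_dvd (by norm_num) (Dvd.intro _ e6)
  omega

/-- The sail lemma. -/
theorem sail {G : GaussianInt → ZMod 2} (h : IsPar G) (K : GaussianInt → Prop)
    (hK : ∀ (u v w : GaussianInt) (A B m : ℤ), K u → K v → 0 ≤ A → 0 ≤ B → A + B ≤ m → 0 < m →
      m * w.re = A * u.re + B * v.re → m * w.im = A * u.im + B * v.im → K w)
    (n : ℕ) : ∀ u v : GaussianInt, u ≠ 0 → v ≠ 0 → K u → K v → det u v = n → G u ≠ G v →
      ∃ a b : GaussianInt, K a ∧ K b ∧ det a b = 1 ∧ G a ≠ G b := by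
  induction n using Nat.strong_induction_on with
  | _ n ih =>
    intro u v hu hv Ku Kv hd hne
    rcases Nat.lt_or_ge n 2 with hn | hn
    · interval_cases n
      · exfalso
        apply hne
        apply zmod2_eq
        rw [h.add_eq hu hv]
        refine h.int _ ?_ (by simpa using hd)
        rw [← star_mul_eq]
        exact mul_ne_zero (by simpa using hu) hv
      · exact ⟨u, v, Ku, Kv, by simpa using hd, hne⟩
    · obtain ⟨w, A, B, h1, h2, h3, h4, h5, h6, h7, h8⟩ :=
        exists_mid u v n (by exact_mod_cast hn) hd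
      have hn0 : (0 : ℤ) < n := by omega
      have Kw := hK u v w A B n Ku Kv h1 h2 h5 hn0 h7 h8
      have d1 : det u w = B := by
        have : (n : ℤ) * det u w = n * B := by
          unfold det at hd ⊢
          linear_combination u.re * h8 - u.im * h7 + B * hd
        exact mul_left_cancel₀ hn0.ne' this
      have d2 : det w v = A := by
        have : (n : ℤ) * det w v = n * A := by
          unfold det at hd ⊢
          linear_combination v.im * h7 - v.re * h8 + A * hd
        exact mul_left_cancel₀ hn0.ne' this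
      have hw : w ≠ 0 := by
        rintro rfl
        simp [det] at d1 d2
        omega
      rcases zmod2_or (c := G w) hne with h9 | h9
      · exact ih B.toNat (by omega) u w hu hw Ku Kw (by omega) h9
      · exact ih A.toNat (by omega) w v hw hv Kw Kv (by omega) h9

/-- The sail lemma without orientation. -/
theorem sail' {G : GaussianInt → ZMod 2} (h : IsPar G) (K : GaussianInt → Prop)
    (hK : ∀ (u v w : GaussianInt) (A B m : ℤ), K u → K v → 0 ≤ A → 0 ≤ B → A + B ≤ m → 0 < m →
      m * w.re = A * u.re + B * v.re → m * w.im = A * u.im + B * v.im → K w)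
    (u v : GaussianInt) (hu : u ≠ 0) (hv : v ≠ 0) (Ku : K u) (Kv : K v) (hne : G u ≠ G v) :
    ∃ a b : GaussianInt, K a ∧ K b ∧ det a b = 1 ∧ G a ≠ G b := by
  rcases le_total 0 (det u v) with hd | hd
  · exact sail h K hK (det u v).toNat u v hu hv Ku Kv (by omega) hne
  · have : det v u = -det u v := by unfold det; ring
    exact sail h K hK (det v u).toNat v u hv hu Kv Ku (by omega) hne.symm

theorem norm_mul_norm (a b : GaussianInt) : a.norm * b.norm = inn a b ^ 2 + det a b ^ 2 := by
  rw [norm_eq, norm_eq]; unfold inn det; ring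

/-- Two first vertices of edges with the same inner product and the same norm are associates. -/
theorem fibre {a b a' b' : GaussianInt} (h1 : det a b = 1) (h2 : det a' b' = 1)
    (h3 : inn a b = inn a' b') (h4 : a.norm = a'.norm) :
    det a a' = 0 ∨ inn a a' = 0 := by
  have hd : 0 < a.norm := by
    have := norm_mul_norm a b
    have h0 := GaussianInt.norm_nonneg a
    rcases h0.lt_or_eq with h | h
    · exact h
    · rw [← h, h1] at this
      nlinarith [sq_nonneg (inn a b)]
  have e0 := norm_mul_norm a a'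
  rw [← h4] at e0
  have n1 := norm_eq a
  have n2 := norm_eq a'
  rw [← h4] at n2
  have k1 : a.norm * b.re = inn a b * a.re - a.im := by
    rw [n1]; unfold inn det at *; linear_combination (-a.im) * h1
  have k2 : a.norm * b.im = inn a b * a.im + a.re := by
    rw [n1]; unfold inn det at *; linear_combination a.re * h1
  have k3 : a.norm * b'.re = inn a b * a'.re - a'.im := by
    rw [n2, h3]; unfold inn det at *; linear_combination (-a'.im) * h2
  have k4 : a.norm * b'.im = inn a b * a'.im + a'.re := by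
    rw [n2, h3]; unfold inn det at *; linear_combination a'.re * h2
  obtain ⟨x, hx⟩ : ∃ x : ℤ, 2 * inn a a' = a.norm * x := by
    refine ⟨det a b' + det a' b, ?_⟩
    generalize inn a b = s at k1 k2 k3 k4
    unfold inn det
    linear_combination (-a.re) * k4 + a.im * k3 - a'.re * k2 + a'.im * k1
  obtain ⟨y, hy⟩ : ∃ y : ℤ, 2 * det a a' = a.norm * y := by
    refine ⟨inn a' b - inn a b', ?_⟩
    generalize inn a b = s at k1 k2 k3 k4
    unfold inn det
    linear_combination (-a'.re) * k1 - a'.im * k2 + a.re * k3 + a.im * k4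
  have e1 : a.norm ^ 2 * (x ^ 2 + y ^ 2 - 4) = 0 := by
    linear_combination (-(2 * inn a a' + a.norm * x)) * hx - (2 * det a a' + a.norm * y) * hy
      - 4 * e0
  have e2 : x ^ 2 + y ^ 2 = 4 := by
    rcases mul_eq_zero.mp e1 with h | h
    · exact absurd (pow_eq_zero_iff (by norm_num) |>.mp h) hd.ne'
    · omega
  have hx2 : -2 ≤ x ∧ x ≤ 2 := by constructor <;> nlinarith [sq_nonneg y]
  have hy2 : -2 ≤ y ∧ y ≤ 2 := by constructor <;> nlinarith [sq_nonneg x]
  have : x = 0 ∨ y = 0 := by
    obtain ⟨x1, x2⟩ := hx2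
    obtain ⟨y1, y2⟩ := hy2
    interval_cases x <;> interval_cases y <;> simp_all
  rcases this with h | h
  · right; rw [h] at hx; omega
  · left; rw [h] at hy; omega

end Pool.Agent.H638Z.Par
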